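import Pool.Agent.Lib_helper39.AQM.W.All

/-! AQM, block SP (helper8): sparse sets of frequencies. -/

set_option autoImplicit false

namespace Pool.Agent.AQM

open Pool.Agent.MQ Pool.Agent.T2 Filter Topology MeasureTheory

/-- the dual large sieve from a bound of the character sums -/
theorem sp_dual {P : Finset El} {U : Finset ℤ} (u : El → ℝ) {E : ℝ} (hE : 0 ≤ E)
    (h : ∀ k ∈ U, ∀ k' ∈ U, k ≠ k' →
      ‖∑ v ∈ P, ex (((k - k' : ℤ) : ℝ) * u v)‖ ≤ E) (a : ℤ → ℂ) :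
    ∑ v ∈ P, ‖∑ k ∈ U, a k * ex (k * u v)‖ ^ 2 ≤
      ((P.card : ℝ) + U.card * E) * ∑ k ∈ U, ‖a k‖ ^ 2 := by
  classical
  have key : ((∑ v ∈ P, ‖∑ k ∈ U, a k * ex (k * u v)‖ ^ 2 : ℝ) : ℂ) =
      ∑ k ∈ U, ∑ k' ∈ U, a k * (starRingEnd ℂ) (a k') *
        ∑ v ∈ P, ex (((k - k' : ℤ) : ℝ) * u v) := by
    push_cast
    have h1 : ∀ v ∈ P, ((‖∑ k ∈ U, a k * ex (k * u v)‖ : ℂ)) ^ 2 =
        ∑ k ∈ U, ∑ k' ∈ U, a k * (starRingEnd ℂ) (a k') * ex (((k - k' : ℤ) : ℝ) * u v) := by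
      intro v _
      rw [← Complex.mul_conj', map_sum, Finset.sum_mul_sum]
      apply Finset.sum_congr rfl
      intro k _
      apply Finset.sum_congr rfl
      intro k' _
      have e1 : ex (((k - k' : ℤ) : ℝ) * u v) = ex (k * u v) * (starRingEnd ℂ) (ex (k' * u v)) := by
        rw [← ex_neg, ← ex_add]
        congr 1
        push_cast
        ring
      rw [e1, map_mul]
      ring
    rw [Finset.sum_congr rfl h1, Finset.sum_comm]
    apply Finset.sum_congr rfl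
    intro k _
    rw [Finset.sum_comm]
    apply Finset.sum_congr rfl
    intro k' _
    rw [Finset.mul_sum]
    push_cast
    rfl
  have hnn : 0 ≤ ∑ v ∈ P, ‖∑ k ∈ U, a k * ex (k * u v)‖ ^ 2 :=
    Finset.sum_nonneg fun v _ => sq_nonneg _
  have h2 : ∑ v ∈ P, ‖∑ k ∈ U, a k * ex (k * u v)‖ ^ 2 =
      ‖((∑ v ∈ P, ‖∑ k ∈ U, a k * ex (k * u v)‖ ^ 2 : ℝ) : ℂ)‖ := by
    rw [Complex.norm_real, Real.norm_of_nonneg hnn]
  rw [h2, key]
  have hb : ∀ k ∈ U, ∀ k' ∈ U, ‖∑ v ∈ P, ex (((k - k' : ℤ) : ℝ) * u v)‖ ≤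
      (if k = k' then (P.card : ℝ) else 0) + E := by
    intro k hk k' hk'
    by_cases hkk : k = k'
    · rw [if_pos hkk]
      have h3 : ‖∑ v ∈ P, ex (((k - k' : ℤ) : ℝ) * u v)‖ ≤ ∑ v ∈ P, (1 : ℝ) := by
        refine (norm_sum_le _ _).trans (Finset.sum_le_sum fun v _ => ?_)
        rw [ex_norm]
      rw [Finset.sum_const, nsmul_eq_mul, mul_one] at h3
      linarith
    · rw [if_neg hkk]
      have := h k hk k' hk' hkk
      linarith
  calc ‖∑ k ∈ U, ∑ k' ∈ U, a k * (starRingEnd ℂ) (a k') *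
        ∑ v ∈ P, ex (((k - k' : ℤ) : ℝ) * u v)‖
      ≤ ∑ k ∈ U, ∑ k' ∈ U, ‖a k‖ * ‖a k'‖ * ((if k = k' then (P.card : ℝ) else 0) + E) := by
        refine (norm_sum_le _ _).trans (Finset.sum_le_sum fun k hk => ?_)
        refine (norm_sum_le _ _).trans (Finset.sum_le_sum fun k' hk' => ?_)
        rw [norm_mul, norm_mul, Complex.norm_conj]
        exact mul_le_mul_of_nonneg_left (hb k hk k' hk') (by positivity)
    _ = (P.card : ℝ) * ∑ k ∈ U, ‖a k‖ ^ 2 + E * (∑ k ∈ U, ‖a k‖) ^ 2 := by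
        have h3 : ∀ k ∈ U, ∑ k' ∈ U, ‖a k‖ * ‖a k'‖ * ((if k = k' then (P.card : ℝ) else 0) + E) =
            (P.card : ℝ) * ‖a k‖ ^ 2 + E * (‖a k‖ * ∑ k' ∈ U, ‖a k'‖) := by
          intro k hk
          have h4 : ∀ k' ∈ U, ‖a k‖ * ‖a k'‖ * ((if k = k' then (P.card : ℝ) else 0) + E) =
              (if k = k' then ‖a k‖ * ‖a k'‖ * (P.card : ℝ) else 0) + E * (‖a k‖ * ‖a k'‖) := by
            intro k' _
            split_ifs <;> ring
          rw [Finset.sum_congr rfl h4, Finset.sum_add_distrib, Finset.sum_ite_eq, if_pos hk,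
            ← Finset.mul_sum, ← Finset.mul_sum]
          ring
        rw [Finset.sum_congr rfl h3, Finset.sum_add_distrib, ← Finset.mul_sum, ← Finset.mul_sum,
          ← Finset.sum_mul]
        ring
    _ ≤ (P.card : ℝ) * ∑ k ∈ U, ‖a k‖ ^ 2 + E * (U.card * ∑ k ∈ U, ‖a k‖ ^ 2) := by
        have h3 : (∑ k ∈ U, ‖a k‖) ^ 2 ≤ U.card * ∑ k ∈ U, ‖a k‖ ^ 2 := sq_sum_le_card_mul_sum_sq
        have := mul_le_mul_of_nonneg_left h3 hE
        linarith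
    _ = _ := by ring

/-- sparse sets of frequencies (expand the square) -/
theorem sparse_pr {b c : ℤ} (A : Ang b c) : ∃ κ : ℝ, 0 < κ ∧ κ ≤ 1 ∧ ∀ q : ℕ, 1 ≤ q →
    ∃ X₀ : ℝ, 1 ≤ X₀ ∧
    ∀ V : El → Prop, Per q V → ∀ X : ℝ, X₀ ≤ X → ∀ U : Finset ℤ, U ⊆ Ks (X ^ 2 / 2) →
    ∀ a : ℤ → ℂ, ∑ v ∈ PS A q V X, ‖∑ k ∈ U, a k * ex (k * A.u v)‖ ^ 2 ≤
      ((PS A q V X).card + U.card * X ^ (1 - κ)) * ∑ k ∈ U, ‖a k‖ ^ 2 := by
  obtain ⟨κ, h0, h1, h⟩ := exp_PS A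
  refine ⟨κ, h0, h1, fun q hq => ?_⟩
  obtain ⟨X₀, h2⟩ := h q hq
  refine ⟨max 1 X₀, le_max_left _ _, ?_⟩
  intro V hV X hX U hU a
  have hX1 : 1 ≤ X := (le_max_left _ _).trans hX
  have hX0 : X₀ ≤ X := (le_max_right _ _).trans hX
  apply sp_dual A.u (Real.rpow_nonneg (by linarith) _)
  intro k hk k' hk' hne
  apply h2 V hV X hX0 (k - k') (sub_ne_zero.2 hne)
  have hb : ∀ j ∈ U, |(j : ℝ)| ≤ X ^ 2 / 2 := by
    intro j hj
    have h3 := hU hj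
    unfold Ks at h3
    rw [Finset.mem_Icc] at h3
    rw [abs_le]
    constructor
    · have : -j ≤ ⌊X ^ 2 / 2⌋ := by linarith
      have := Int.le_floor.1 this
      push_cast at this
      linarith
    · exact Int.le_floor.1 h3.2
  have h3 := hb k hk
  have h4 := hb k' hk'
  push_cast
  have h5 := abs_sub (k : ℝ) (k' : ℝ)
  linarith

end Pool.Agent.AQM
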